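import Pool.Agent.U136.DX.Stm5

set_option autoImplicit false

/-! Project DX, package PDG: the second derivatives of `lapP`. -/

namespace Pool.Agent.U450.DX

open Pool.Agent.U136.DX Pool.Agent.N983.RT MvPolynomial

theorem pdX (i j : Fin 3) : pderiv i (X j : MvPolynomial (Fin 3) ℝ) = if j = i then 1 else 0 := by
  by_cases h : j = i
  · subst h; simp
  · rw [pderiv_X_of_ne h, if_neg h]

theorem pd2 (i : Fin 3) : pderiv i (2 : MvPolynomial (Fin 3) ℝ) = 0 := by
  have h : (2 : MvPolynomial (Fin 3) ℝ) = C 2 := (map_ofNat C 2).symm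
  rw [h, pderiv_C]

theorem t_PDG : S_PDG := by
  intro e m hm k j
  obtain ⟨n, rfl⟩ : ∃ n, m = n + 2 := ⟨m - 2, by omega⟩
  unfold ev dE lapP GG
  have h1 : n + 2 - 1 = n + 1 := by omega
  have h2 : n + 2 - 2 = n := by omega
  rw [h1, h2]
  simp only [Fin.sum_univ_three]
  fin_cases j <;>
  · simp [pdX, pd2, Derivation.leibniz, Derivation.leibniz_pow]
    ring

end Pool.Agent.U450.DX
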